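import Mathlib

/-!
# MP_6603ca_an: a u.p.e. system without an ergodic measure of full support

Points are two-sided sequences in `[0,1]`; a nonzero entry `t` at place `i` forces every interval
`I` around `i` to contain at most `max(1, t |I|)` nonzero entries. The shift has uniform positive
entropy, but a point in which arbitrarily small nonzero symbols occur has nonzero entries of
density zero, and this excludes ergodic measures of full support.
-/

set_option autoImplicit false

open MeasureTheory Filter Topology Set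

namespace Pool.Agent.Results.MP_6603ca_an.NoErgodicFullSupport

/-- `N(𝒰)`, the minimal cardinality of a subcover of `𝒰` -/
noncomputable def minCard {X : Type} (𝒰 : Set (Set X)) : ℕ :=
  sInf {k | ∃ s : Finset (Set X), (s : Set (Set X)) ⊆ 𝒰 ∧ ⋃₀ (s : Set (Set X)) = univ ∧
    s.card = k}

/-- the cover `𝒰 ∨ T⁻¹ 𝒰 ∨ ⋯ ∨ T^{-(n-1)} 𝒰` -/
def joinN {X : Type} (T : X → X) (𝒰 : Set (Set X)) (n : ℕ) : Set (Set X) :=
  {W | ∃ f : Fin n → Set X, (∀ j, f j ∈ 𝒰) ∧ W = ⋂ j : Fin n, (T^[(j : ℕ)]) ⁻¹' (f j)}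

/-- the limit `h(T, 𝒰) = lim (1/n) log N(𝒰 ∨ ⋯ ∨ T^{-(n-1)} 𝒰)` exists and is positive -/
def PosEntropy {X : Type} (T : X → X) (𝒰 : Set (Set X)) : Prop :=
  ∃ h : ℝ, 0 < h ∧
    Tendsto (fun n : ℕ => 1 / (n : ℝ) * Real.log (minCard (joinN T 𝒰 n))) atTop (𝓝 h)

/-- uniform positive entropy -/
def UPE {X : Type} [TopologicalSpace X] (T : X → X) : Prop :=
  ∀ U V : Set X, IsOpen U → IsOpen V → U ∪ V = univ → ¬ Dense U → ¬ Dense V →
    PosEntropy T {U, V}

section Cover

variable {X : Type} (T : X → X) (𝒰 : Set (Set X))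

lemma joinN_finite (h : 𝒰.Finite) (n : ℕ) : (joinN T 𝒰 n).Finite := by
  have h1 : {f : Fin n → Set X | ∀ j, f j ∈ 𝒰}.Finite := Set.Finite.pi' fun _ => h
  refine (h1.image (fun f => ⋂ j : Fin n, (T^[(j : ℕ)]) ⁻¹' (f j))).subset ?_
  rintro W ⟨f, hf, rfl⟩
  exact ⟨f, hf, rfl⟩

lemma joinN_cover (h : ⋃₀ 𝒰 = univ) (n : ℕ) : ⋃₀ joinN T 𝒰 n = univ := by
  rw [eq_univ_iff_forall]
  intro x
  have h1 : ∀ j : Fin n, ∃ A ∈ 𝒰, T^[(j : ℕ)] x ∈ A := by
    intro j
    have : T^[(j : ℕ)] x ∈ ⋃₀ 𝒰 := by rw [h]; exact mem_univ _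
    exact this
  choose f hf hfx using h1
  exact ⟨_, ⟨f, hf, rfl⟩, mem_iInter.2 hfx⟩

lemma exists_min (h : 𝒰.Finite) (h' : ⋃₀ 𝒰 = univ) :
    ∃ s : Finset (Set X), (s : Set (Set X)) ⊆ 𝒰 ∧ ⋃₀ (s : Set (Set X)) = univ ∧
      s.card = minCard 𝒰 := by
  have hne : {k | ∃ s : Finset (Set X), (s : Set (Set X)) ⊆ 𝒰 ∧ ⋃₀ (s : Set (Set X)) = univ ∧
      s.card = k}.Nonempty :=
    ⟨h.toFinset.card, h.toFinset, by simp, by simpa using h', rfl⟩
  exact Nat.sInf_mem hne

lemma minCard_le {𝒰 : Set (Set X)} {s : Finset (Set X)} (h : (s : Set (Set X)) ⊆ 𝒰)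
    (h' : ⋃₀ (s : Set (Set X)) = univ) : minCard 𝒰 ≤ s.card :=
  Nat.sInf_le ⟨s, h, h', rfl⟩

lemma minCard_pos [Nonempty X] (h : 𝒰.Finite) (h' : ⋃₀ 𝒰 = univ) : 0 < minCard 𝒰 := by
  obtain ⟨s, -, hs, hc⟩ := exists_min 𝒰 h h'
  rw [← hc, Finset.card_pos]
  obtain ⟨x⟩ : Nonempty X := inferInstance
  have : x ∈ ⋃₀ (s : Set (Set X)) := by rw [hs]; exact mem_univ _
  obtain ⟨A, hA, -⟩ := this
  exact ⟨A, hA⟩

lemma join_mem {m n : ℕ} {A B : Set X} (hA : A ∈ joinN T 𝒰 m) (hB : B ∈ joinN T 𝒰 n) :
    A ∩ T^[m] ⁻¹' B ∈ joinN T 𝒰 (m + n) := by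
  obtain ⟨f, hf, rfl⟩ := hA
  obtain ⟨g, hg, rfl⟩ := hB
  refine ⟨Fin.append f g, ?_, ?_⟩
  · intro j
    refine Fin.addCases (fun i => ?_) (fun i => ?_) j
    · rw [Fin.append_left]; exact hf i
    · rw [Fin.append_right]; exact hg i
  · ext x
    simp only [mem_inter_iff, mem_iInter, mem_preimage]
    constructor
    · rintro ⟨h1, h2⟩ j
      refine Fin.addCases (fun i => ?_) (fun i => ?_) j
      · rw [Fin.append_left]
        exact h1 i
      · rw [Fin.append_right]
        have := h2 i
        rw [← Function.iterate_add_apply] at this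
        rw [Fin.val_natAdd, add_comm]
        exact this
    · intro h
      constructor
      · intro i
        have := h (Fin.castAdd n i)
        rw [Fin.append_left] at this
        exact this
      · intro i
        have := h (Fin.natAdd m i)
        rw [Fin.append_right, Fin.val_natAdd, add_comm, Function.iterate_add_apply] at this
        exact this

lemma minCard_add (h : 𝒰.Finite) (h' : ⋃₀ 𝒰 = univ) (m n : ℕ) :
    minCard (joinN T 𝒰 (m + n)) ≤ minCard (joinN T 𝒰 m) * minCard (joinN T 𝒰 n) := by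
  classical
  obtain ⟨s, hs1, hs2, hs3⟩ := exists_min _ (joinN_finite T 𝒰 h m) (joinN_cover T 𝒰 h' m)
  obtain ⟨t, ht1, ht2, ht3⟩ := exists_min _ (joinN_finite T 𝒰 h n) (joinN_cover T 𝒰 h' n)
  rw [← hs3, ← ht3]
  refine (minCard_le (s := Finset.image₂ (fun A B => A ∩ T^[m] ⁻¹' B) s t) ?_ ?_).trans
    (Finset.card_image₂_le _ _ _)
  · intro W hW
    obtain ⟨A, hA, B, hB, rfl⟩ := Finset.mem_image₂.1 hW
    exact join_mem T 𝒰 (hs1 hA) (ht1 hB)
  · rw [eq_univ_iff_forall]
    intro x
    have h1 : x ∈ ⋃₀ (s : Set (Set X)) := by rw [hs2]; exact mem_univ _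
    have h2 : T^[m] x ∈ ⋃₀ (t : Set (Set X)) := by rw [ht2]; exact mem_univ _
    obtain ⟨A, hA, hxA⟩ := h1
    obtain ⟨B, hB, hxB⟩ := h2
    exact ⟨_, Finset.mem_image₂_of_mem hA hB, hxA, hxB⟩

lemma subadd [Nonempty X] (h : 𝒰.Finite) (h' : ⋃₀ 𝒰 = univ) :
    Subadditive (fun n => Real.log (minCard (joinN T 𝒰 n))) := by
  intro m n
  have p : ∀ k, (0 : ℝ) < minCard (joinN T 𝒰 k) := fun k => by
    exact_mod_cast minCard_pos _ (joinN_finite T 𝒰 h k) (joinN_cover T 𝒰 h' k)
  rw [← Real.log_mul (p m).ne' (p n).ne']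
  exact Real.log_le_log (p _) (by exact_mod_cast minCard_add T 𝒰 h h' m n)

/-- A lower bound along the multiples of `K` gives positive entropy. -/
lemma posEntropy_of [Nonempty X] (h : 𝒰.Finite) (h' : ⋃₀ 𝒰 = univ) {K : ℕ} (hK : 0 < K)
    (hl : ∀ N : ℕ, 2 ^ N ≤ minCard (joinN T 𝒰 (N * K))) : PosEntropy T 𝒰 := by
  have hs := subadd T 𝒰 h h'
  have hb : BddBelow (range fun n : ℕ => Real.log (minCard (joinN T 𝒰 n)) / n) := by
    refine ⟨0, ?_⟩
    rintro _ ⟨n, rfl⟩
    exact div_nonneg (Real.log_natCast_nonneg _) (Nat.cast_nonneg _)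
  have ht := hs.tendsto_lim hb
  refine ⟨hs.lim, ?_, ?_⟩
  · have h1 : Tendsto (fun N : ℕ => N * K) atTop atTop :=
      tendsto_id.atTop_mul_const' hK
    have h2 := ht.comp h1
    have hK' : (0 : ℝ) < K := by exact_mod_cast hK
    have h3 : Real.log 2 / K ≤ hs.lim := by
      refine ge_of_tendsto h2 ?_
      filter_upwards [eventually_gt_atTop 0] with N hN
      have hN' : (0 : ℝ) < N := by exact_mod_cast hN
      simp only [Function.comp]
      have h4 : (N : ℝ) * Real.log 2 ≤ Real.log (minCard (joinN T 𝒰 (N * K))) := by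
        rw [← Real.log_pow]
        apply Real.log_le_log (by positivity)
        exact_mod_cast hl N
      push_cast
      rw [div_le_div_iff₀ hK' (by positivity)]
      nlinarith
    exact lt_of_lt_of_le (div_pos (Real.log_pos (by norm_num)) hK') h3
  · refine ht.congr fun n => ?_
    ring

end Cover

/-- the sequence `x` is good: a nonzero entry `t` at place `i` forces every interval `[a, b]`
around `i` to contain at most `max(1, t |I|)` nonzero entries -/
def Good (x : ℤ → unitInterval) : Prop :=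
  ∀ i, x i ≠ 0 → ∀ a b : ℤ, a ≤ i → i ≤ b →
    (({j ∈ Finset.Icc a b | x j ≠ 0}.card : ℕ) : ℝ) ≤ max 1 (((b - a + 1 : ℤ) : ℝ) * (x i : ℝ))

lemma isClosed_good : IsClosed {x | Good x} := by
  have : {x : ℤ → unitInterval | Good x} = ⋂ (i : ℤ) (a : ℤ) (b : ℤ) (_ : a ≤ i) (_ : i ≤ b),
      {x | x i ≠ 0 → (({j ∈ Finset.Icc a b | x j ≠ 0}.card : ℕ) : ℝ) ≤
        max 1 (((b - a + 1 : ℤ) : ℝ) * (x i : ℝ))} := by
    ext x
    simp only [Good, Set.mem_ofPred_eq, mem_iInter]
    constructor
    · intro h i a b h1 h2 h3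
      exact h i h3 a b h1 h2
    · intro h i h3 a b h1 h2
      exact h i a b h1 h2 h3
  rw [this]
  refine isClosed_iInter fun i => isClosed_iInter fun a => isClosed_iInter fun b =>
    isClosed_iInter fun _ => isClosed_iInter fun _ => ?_
  rw [← isOpen_compl_iff, isOpen_iff_eventually]
  intro x hx
  simp only [mem_compl_iff, Set.mem_ofPred_eq, Classical.not_imp, not_le] at hx
  obtain ⟨h1, h2⟩ := hx
  have e1 : ∀ᶠ y : ℤ → unitInterval in 𝓝 x, y i ≠ 0 :=
    (continuous_apply i).continuousAt.eventually_ne h1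
  have e2 : ∀ᶠ y : ℤ → unitInterval in 𝓝 x, ∀ j ∈ {j ∈ Finset.Icc a b | x j ≠ 0}, y j ≠ 0 := by
    rw [Filter.eventually_all_finset]
    intro j hj
    exact (continuous_apply j).continuousAt.eventually_ne (Finset.mem_filter.1 hj).2
  have e3 : ∀ᶠ y : ℤ → unitInterval in 𝓝 x, max 1 (((b - a + 1 : ℤ) : ℝ) * (y i : ℝ)) <
      (({j ∈ Finset.Icc a b | x j ≠ 0}.card : ℕ) : ℝ) := by
    have hc : Continuous fun y : ℤ → unitInterval =>
        max (1 : ℝ) (((b - a + 1 : ℤ) : ℝ) * (y i : ℝ)) := by fun_prop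
    exact hc.continuousAt.eventually_lt continuousAt_const h2
  filter_upwards [e1, e2, e3] with y g1 g2 g3
  simp only [mem_compl_iff, Set.mem_ofPred_eq, Classical.not_imp, not_le]
  refine ⟨g1, g3.trans_le ?_⟩
  have : {j ∈ Finset.Icc a b | x j ≠ 0} ⊆ {j ∈ Finset.Icc a b | y j ≠ 0} := by
    intro j hj
    exact Finset.mem_filter.2 ⟨(Finset.mem_filter.1 hj).1, g2 j hj⟩
  exact_mod_cast Finset.card_le_card this

/-- the space -/
abbrev X : Type := {x : ℤ → unitInterval // Good x}

instance : CompactSpace X := isCompact_iff_compactSpace.1 isClosed_good.isCompact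

lemma good_shift (c : ℤ) {x : ℤ → unitInterval} (hx : Good x) : Good (fun i => x (i + c)) := by
  intro i hi a b ha hb
  have h := hx (i + c) hi (a + c) (b + c) (by linarith) (by linarith)
  have e : {j ∈ Finset.Icc (a + c) (b + c) | x j ≠ 0}.card =
      {j ∈ Finset.Icc a b | x (j + c) ≠ 0}.card := by
    rw [← Finset.map_add_right_Icc, Finset.filter_map, Finset.card_map]
    rfl
  rw [e] at h
  have e2 : b + c - (a + c) + 1 = b - a + 1 := by ring
  rw [e2] at h
  exact h

/-- the shift by `c` -/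
def sh (c : ℤ) (x : X) : X := ⟨fun i => x.1 (i + c), good_shift c x.2⟩

lemma sh_continuous (c : ℤ) : Continuous (sh c) := by
  refine Continuous.subtype_mk (continuous_pi fun i => ?_) _
  exact (continuous_apply (i + c)).comp continuous_subtype_val

/-- the shift -/
def T : X ≃ₜ X where
  toFun := sh 1
  invFun := sh (-1)
  left_inv x := by ext i; simp [sh]
  right_inv x := by ext i; simp [sh]
  continuous_toFun := sh_continuous 1
  continuous_invFun := sh_continuous (-1)

lemma T_apply (x : X) (i : ℤ) : (T x).1 i = x.1 (i + 1) := rfl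

lemma T_iter (n : ℕ) (x : X) (i : ℤ) : (T^[n] x).1 i = x.1 (i + n) := by
  induction n generalizing i with
  | zero => simp
  | succ n ih =>
    rw [Function.iterate_succ_apply', T_apply, ih]
    push_cast
    ring_nf

/-- the sequence which shows the pattern `w (s k)` on `[-r, r]` around the place `k K` -/
def patt (w : Bool → X) (r K : ℤ) (s : ℤ → Bool) : ℤ → unitInterval := fun j =>
  if (j + r) % K ≤ 2 * r then (w (s ((j + r) / K))).1 ((j + r) % K - r) else 0

section Patt

variable {w : Bool → X} {r K : ℤ} {s : ℤ → Bool}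

lemma patt_at (hr : 0 ≤ r) (hK : 4 * r < K) (k i : ℤ) (h1 : -r ≤ i) (h2 : i ≤ r) :
    patt w r K s (k * K + i) = (w (s k)).1 i := by
  have e : k * K + i + r = (i + r) + k * K := by ring
  have h3 : 0 ≤ i + r := by linarith
  have h4 : i + r < K := by linarith
  have hK0 : K ≠ 0 := by linarith
  have e1 : (k * K + i + r) % K = i + r := by
    rw [e, Int.add_mul_emod_self_right, Int.emod_eq_of_lt h3 h4]
  have e2 : (k * K + i + r) / K = k := by
    rw [e, Int.add_mul_ediv_right _ _ hK0, Int.ediv_eq_zero_of_lt h3 h4, zero_add]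
  rw [patt, e1, e2, if_pos (by linarith)]
  ring_nf

lemma patt_ne (hr : 0 ≤ r) (hK : 4 * r < K) {p : ℤ} (h : patt w r K s p ≠ 0) :
    ∃ k i : ℤ, p = k * K + i ∧ -r ≤ i ∧ i ≤ r ∧ (p + r) / K = k := by
  rw [patt] at h
  split_ifs at h with h1
  · refine ⟨(p + r) / K, (p + r) % K - r, ?_, ?_, by linarith, rfl⟩
    · have := Int.emod_add_mul_ediv (p + r) K
      linarith
    · have := Int.emod_nonneg (p + r) (show K ≠ 0 by linarith)
      linarith
  · exact absurd rfl h

/-- a crude bound for the number of nonzero entries -/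
lemma patt_card (hr : 0 ≤ r) (hK : 4 * r < K) (a b : ℤ) (hab : a ≤ b) :
    (({j ∈ Finset.Icc a b | patt w r K s j ≠ 0}.card : ℕ) : ℝ) ≤
      (2 * (r : ℝ) + 1) * (((b : ℝ) - a) / K + 2) := by
  have hK0 : 0 < K := by linarith
  have h1 : {j ∈ Finset.Icc a b | patt w r K s j ≠ 0}.card ≤
      (Finset.Icc ((a + r) / K) ((b + r) / K) ×ˢ Finset.Icc (-r) r).card := by
    apply Finset.card_le_card_of_injOn (fun j => ((j + r) / K, (j + r) % K - r))
    · intro j hj
      have hj' := Finset.mem_filter.1 hj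
      obtain ⟨k, i, e, h3, h4, h5⟩ := patt_ne hr hK hj'.2
      have h6 := Finset.mem_Icc.1 hj'.1
      have h7 : (j + r) % K - r = i := by
        have := Int.emod_add_mul_ediv (j + r) K
        rw [h5] at this
        linarith
      simp only [Finset.coe_product, Finset.coe_Icc, mem_prod, mem_Icc]
      refine ⟨⟨?_, ?_⟩, ?_, ?_⟩
      · exact Int.ediv_le_ediv hK0 (by linarith)
      · exact Int.ediv_le_ediv hK0 (by linarith)
      · rw [h7]; exact h3
      · rw [h7]; exact h4
    · intro j _ j' _ h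
      simp only [Prod.mk.injEq] at h
      have h1 := Int.emod_add_mul_ediv (j + r) K
      have h2 := Int.emod_add_mul_ediv (j' + r) K
      rw [h.1] at h1
      linarith [h.2]
  rw [Finset.card_product, Int.card_Icc, Int.card_Icc] at h1
  have h2 : (((b + r) / K + 1 - (a + r) / K).toNat : ℝ) ≤ ((b : ℝ) - a) / K + 2 := by
    have g0 : (a + r) / K ≤ (b + r) / K := Int.ediv_le_ediv hK0 (by linarith)
    have g1 : (((b + r) / K + 1 - (a + r) / K).toNat : ℤ) = (b + r) / K + 1 - (a + r) / K :=
      Int.toNat_of_nonneg (by linarith)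
    have g2 : (((b + r) / K + 1 - (a + r) / K).toNat : ℝ) =
        ((((b + r) / K : ℤ)) : ℝ) + 1 - (((a + r) / K : ℤ) : ℝ) := by
      exact_mod_cast congrArg (Int.cast : ℤ → ℝ) g1
    rw [g2]
    have hKr : (0 : ℝ) < K := by exact_mod_cast hK0
    have g3 : (((b + r) / K : ℤ) : ℝ) ≤ ((b : ℝ) + r) / K := by
      rw [le_div_iff₀ hKr]
      exact_mod_cast Int.ediv_mul_le (b + r) hK0.ne'
    have g4 : ((a : ℝ) + r) / K ≤ (((a + r) / K : ℤ) : ℝ) + 1 := by
      rw [div_le_iff₀ hKr]
      have := Int.lt_ediv_add_one_mul_self (a + r) hK0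
      exact_mod_cast this.le
    have g5 : ((b : ℝ) + r) / K - ((a : ℝ) + r) / K = ((b : ℝ) - a) / K := by ring
    linarith
  have h3 : ((r + 1 - -r).toNat : ℝ) = 2 * (r : ℝ) + 1 := by
    have g1 : ((r + 1 - -r).toNat : ℤ) = r + 1 - -r := Int.toNat_of_nonneg (by linarith)
    have g2 : ((r + 1 - -r).toNat : ℝ) = (r : ℝ) + 1 - -(r : ℝ) := by
      exact_mod_cast congrArg (Int.cast : ℤ → ℝ) g1
    rw [g2]; ring
  have h4 : (({j ∈ Finset.Icc a b | patt w r K s j ≠ 0}.card : ℕ) : ℝ) ≤
      (((b + r) / K + 1 - (a + r) / K).toNat : ℝ) * ((r + 1 - -r).toNat : ℝ) := by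
    exact_mod_cast h1
  rw [h3] at h4
  have hr' : (0 : ℝ) ≤ r := by exact_mod_cast hr
  calc _ ≤ _ := h4
    _ ≤ (((b : ℝ) - a) / K + 2) * (2 * (r : ℝ) + 1) := by
        apply mul_le_mul_of_nonneg_right h2 (by positivity)
    _ = _ := by ring

/-- the pattern sequences are good if `K` is large -/
lemma patt_good (hr : 0 ≤ r) (hK : 4 * r < K) {ε : ℝ}
    (hε : ∀ c, ∀ i, -r ≤ i → i ≤ r → (w c).1 i = 0 ∨ ε ≤ ((w c).1 i : ℝ))
    (hKε : 5 * (2 * (r : ℝ) + 1) ≤ K * ε) : Good (patt w r K s) := by
  intro p hp a b ha hb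
  obtain ⟨k, i, hpk, h1, h2, -⟩ := patt_ne hr hK hp
  have hval : patt w r K s p = (w (s k)).1 i := by rw [hpk, patt_at hr hK k i h1 h2]
  have hwne : (w (s k)).1 i ≠ 0 := by rw [← hval]; exact hp
  by_cases hcase : (k - 1) * K + r < a ∧ b < (k + 1) * K - r
  · obtain ⟨hc1, hc2⟩ := hcase
    have hg := (w (s k)).2 i hwne (a - k * K) (b - k * K) (by linarith) (by linarith)
    have e1 : b - k * K - (a - k * K) + 1 = b - a + 1 := by ring
    rw [e1, ← hval] at hg
    refine le_trans ?_ hg
    have : {j ∈ Finset.Icc a b | patt w r K s j ≠ 0}.card ≤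
        {j ∈ Finset.Icc (a - k * K) (b - k * K) | (w (s k)).1 j ≠ 0}.card := by
      apply Finset.card_le_card_of_injOn (fun j => j - k * K)
      · intro j hj
        have hj' := Finset.mem_filter.1 hj
        have hj1 := Finset.mem_Icc.1 hj'.1
        obtain ⟨k', i', e, h3, h4, -⟩ := patt_ne hr hK hj'.2
        have hkk : k' = k := by
          have g1 : k' < k + 1 := by
            by_contra hcon
            push Not at hcon
            have : (k + 1) * K ≤ k' * K := mul_le_mul_of_nonneg_right hcon (by linarith)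
            linarith [hj1.2]
          have g2 : k - 1 < k' := by
            by_contra hcon
            push Not at hcon
            have : k' * K ≤ (k - 1) * K := mul_le_mul_of_nonneg_right hcon (by linarith)
            linarith [hj1.1]
          linarith
        subst hkk
        have hv : patt w r K s j = (w (s k')).1 i' := by rw [e, patt_at hr hK k' i' h3 h4]
        have hj2 : patt w r K s j ≠ 0 := hj'.2
        rw [hv] at hj2
        have e3 : j - k' * K = i' := by linarith
        simp only [Finset.coe_filter, Finset.mem_Icc, Set.mem_ofPred_eq]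
        refine ⟨⟨by linarith [hj1.1], by linarith [hj1.2]⟩, ?_⟩
        rw [e3]
        exact hj2
      · intro j _ j' _ h
        simpa using h
    exact_mod_cast this
  · have hL : K - 2 * r ≤ b - a := by
      rw [not_and_or, not_lt, not_lt] at hcase
      rcases hcase with h | h
      · linarith
      · linarith
    have hKr : (0 : ℝ) < K := by
      have : 0 < K := by linarith
      exact_mod_cast this
    have hL' : (K : ℝ) - 2 * r ≤ (b : ℝ) - a := by exact_mod_cast hL
    have hK4 : 4 * (r : ℝ) < K := by exact_mod_cast hK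
    have hr' : (0 : ℝ) ≤ r := by exact_mod_cast hr
    have hcard := patt_card (w := w) (s := s) hr hK a b (by linarith)
    have hεp : ε ≤ (patt w r K s p : ℝ) := by
      rw [hval]
      rcases hε (s k) i h1 h2 with h | h
      · exact absurd h hwne
      · exact h
    refine hcard.trans ((?_ : _ ≤ (((b - a + 1 : ℤ) : ℝ)) * (patt w r K s p : ℝ)).trans
      (le_max_right _ _))
    push_cast
    have hε0 : 0 < ε := by
      by_contra hcon
      push Not at hcon
      nlinarith
    have g1 : ((b : ℝ) - a) / K + 2 ≤ 5 * ((b : ℝ) - a + 1) / K := by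
      rw [le_div_iff₀ hKr, add_mul, div_mul_cancel₀ _ hKr.ne']
      linarith
    calc (2 * (r : ℝ) + 1) * (((b : ℝ) - a) / K + 2)
        ≤ (2 * (r : ℝ) + 1) * (5 * ((b : ℝ) - a + 1) / K) := by
          apply mul_le_mul_of_nonneg_left g1 (by positivity)
      _ = (5 * (2 * (r : ℝ) + 1)) * (((b : ℝ) - a + 1) / K) := by ring
      _ ≤ (K * ε) * (((b : ℝ) - a + 1) / K) := by
          apply mul_le_mul_of_nonneg_right hKε
          apply div_nonneg _ hKr.le
          linarith
      _ = ((b : ℝ) - a + 1) * ε := by field_simp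
      _ ≤ ((b : ℝ) - a + 1) * (patt w r K s p : ℝ) := by
          apply mul_le_mul_of_nonneg_left hεp
          linarith

end Patt

/-- a finite set of nonnegative numbers has a gap above zero -/
lemma exists_gap (J : Finset ℤ) (f : ℤ → unitInterval) :
    ∃ ε : ℝ, 0 < ε ∧ ∀ i ∈ J, f i = 0 ∨ ε ≤ (f i : ℝ) := by
  classical
  induction J using Finset.induction_on with
  | empty => exact ⟨1, one_pos, by simp⟩
  | insert a J _ ih =>
    obtain ⟨ε, h1, h2⟩ := ih
    by_cases ha : f a = 0
    · refine ⟨ε, h1, fun i hi => ?_⟩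
      rcases Finset.mem_insert.1 hi with rfl | hi
      · exact Or.inl ha
      · exact h2 i hi
    · have ha' : 0 < (f a : ℝ) := by
        rcases lt_or_eq_of_le (f a).2.1 with h | h
        · exact h
        · exact absurd (Subtype.ext h.symm) ha
      refine ⟨min ε (f a), lt_min h1 ha', fun i hi => ?_⟩
      rcases Finset.mem_insert.1 hi with rfl | hi
      · exact Or.inr (min_le_right _ _)
      · rcases h2 i hi with h | h
        · exact Or.inl h
        · exact Or.inr ((min_le_left _ _).trans h)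

/-- a point outside the closure of `U` has a window such that no point of `U` agrees with it
on the window -/
lemma exists_window {U : Set X} (hU : ¬ Dense U) :
    ∃ u : X, ∃ r : ℕ, ∀ x : X, (∀ i : ℤ, -(r : ℤ) ≤ i → i ≤ r → x.1 i = u.1 i) → x ∉ U := by
  simp only [Dense, not_forall] at hU
  obtain ⟨u, hu⟩ := hU
  have h1 : IsOpen (closure U)ᶜ := isClosed_closure.isOpen_compl
  obtain ⟨O, hO, hOe⟩ := isOpen_induced_iff.1 h1
  have h2 : u.1 ∈ O := by
    have : u ∈ Subtype.val ⁻¹' O := by rw [hOe]; exact hu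
    exact this
  obtain ⟨I, W, hW, hWO⟩ := isOpen_pi_iff.1 hO u.1 h2
  refine ⟨u, I.sup Int.natAbs, fun x hx hxU => ?_⟩
  have h3 : x.1 ∈ O := by
    apply hWO
    intro i hi
    have h4 : i.natAbs ≤ I.sup Int.natAbs := Finset.le_sup (f := Int.natAbs) hi
    rw [hx i (by omega) (by omega)]
    exact (hW i hi).2
  have h4 : x ∈ Subtype.val ⁻¹' O := h3
  rw [hOe] at h4
  exact h4 (subset_closure hxU)

instance : Nonempty X := ⟨⟨fun _ => 0, fun _ h => absurd rfl h⟩⟩

theorem upe : UPE (T : X → X) := by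
  classical
  intro U V _ _ hUV hU hV
  obtain ⟨u, r1, hu⟩ := exists_window hU
  obtain ⟨v, r2, hv⟩ := exists_window hV
  set r : ℕ := max r1 r2 with hr
  set w : Bool → X := fun c => if c then v else u with hw
  obtain ⟨ε1, he1, he1'⟩ := exists_gap (Finset.Icc (-(r : ℤ)) r) u.1
  obtain ⟨ε2, he2, he2'⟩ := exists_gap (Finset.Icc (-(r : ℤ)) r) v.1
  set ε := min ε1 ε2 with hε
  have hεpos : 0 < ε := lt_min he1 he2
  have hgap : ∀ c, ∀ i : ℤ, -(r : ℤ) ≤ i → i ≤ r → (w c).1 i = 0 ∨ ε ≤ ((w c).1 i : ℝ) := by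
    intro c i h1 h2
    have hi : i ∈ Finset.Icc (-(r : ℤ)) r := Finset.mem_Icc.2 ⟨h1, h2⟩
    cases c
    · rcases he1' i hi with h | h
      · exact Or.inl h
      · exact Or.inr ((min_le_left _ _).trans h)
    · rcases he2' i hi with h | h
      · exact Or.inl h
      · exact Or.inr ((min_le_right _ _).trans h)
  obtain ⟨K, hK⟩ := exists_nat_gt (max (4 * (r : ℝ)) (5 * (2 * (r : ℝ) + 1) / ε))
  have hK1 : 4 * (r : ℤ) < K := by
    have := (le_max_left _ _).trans_lt hK
    exact_mod_cast this
  have hK2 : 5 * (2 * (((r : ℤ)) : ℝ) + 1) ≤ ((K : ℤ) : ℝ) * ε := by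
    have := (le_max_right _ _).trans_lt hK
    rw [div_lt_iff₀ hεpos] at this
    push_cast
    exact this.le
  have hr0 : (0 : ℤ) ≤ r := Int.natCast_nonneg r
  have hKpos : 0 < K := by omega
  let z : (ℤ → Bool) → X := fun s => ⟨patt w r K s, patt_good hr0 hK1 hgap hK2⟩
  have hzU : ∀ s : ℤ → Bool, ∀ k : ℕ, s k = false → T^[k * K] (z s) ∉ U := by
    intro s k hs
    apply hu
    intro i h1 h2
    have h3 : -(r : ℤ) ≤ i := by
      have : (r1 : ℤ) ≤ r := by exact_mod_cast le_max_left r1 r2
      linarith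
    have h4 : i ≤ r := by
      have : (r1 : ℤ) ≤ r := by exact_mod_cast le_max_left r1 r2
      linarith
    rw [T_iter]
    have := patt_at (w := w) (s := s) hr0 hK1 k i h3 h4
    change patt w r K s (i + ((k * K : ℕ) : ℤ)) = _
    rw [show i + ((k * K : ℕ) : ℤ) = k * K + i by push_cast; ring, this, hs]
    rfl
  have hzV : ∀ s : ℤ → Bool, ∀ k : ℕ, s k = true → T^[k * K] (z s) ∉ V := by
    intro s k hs
    apply hv
    intro i h1 h2
    have h3 : -(r : ℤ) ≤ i := by
      have : (r2 : ℤ) ≤ r := by exact_mod_cast le_max_right r1 r2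
      linarith
    have h4 : i ≤ r := by
      have : (r2 : ℤ) ≤ r := by exact_mod_cast le_max_right r1 r2
      linarith
    rw [T_iter]
    have := patt_at (w := w) (s := s) hr0 hK1 k i h3 h4
    change patt w r K s (i + ((k * K : ℕ) : ℤ)) = _
    rw [show i + ((k * K : ℕ) : ℤ) = k * K + i by push_cast; ring, this, hs]
    rfl
  have hfin : ({U, V} : Set (Set X)).Finite := by simp
  have hcov : ⋃₀ ({U, V} : Set (Set X)) = univ := by simpa using hUV
  refine posEntropy_of (T : X → X) _ hfin hcov hKpos fun N => ?_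
  obtain ⟨S, hS1, hS2, hS3⟩ := exists_min _ (joinN_finite (T : X → X) _ hfin (N * K))
    (joinN_cover (T : X → X) _ hcov (N * K))
  rw [← hS3]
  let ext : (Fin N → Bool) → ℤ → Bool := fun t k =>
    if h : k.toNat < N then t ⟨k.toNat, h⟩ else false
  have hext : ∀ (t : Fin N → Bool) (k : Fin N), ext t ((k : ℕ) : ℤ) = t k := by
    intro t k
    simp [ext]
  have hmem : ∀ t : Fin N → Bool, ∃ W ∈ S, z (ext t) ∈ W := by
    intro t
    have : z (ext t) ∈ ⋃₀ (S : Set (Set X)) := by rw [hS2]; exact mem_univ _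
    exact this
  choose F hF hzF using hmem
  have hinj : Function.Injective F := by
    intro t t' htt
    funext k
    obtain ⟨f, hf, hfe⟩ := hS1 (hF t)
    have h1 : z (ext t) ∈ ⋂ j : Fin (N * K), (T^[(j : ℕ)]) ⁻¹' (f j) := by rw [← hfe]; exact hzF t
    have h2 : z (ext t') ∈ ⋂ j : Fin (N * K), (T^[(j : ℕ)]) ⁻¹' (f j) := by
      rw [← hfe, htt]; exact hzF t'
    have hk : (k : ℕ) * K < N * K := Nat.mul_lt_mul_of_pos_right k.2 hKpos
    have h3 := mem_iInter.1 h1 ⟨(k : ℕ) * K, hk⟩
    have h4 := mem_iInter.1 h2 ⟨(k : ℕ) * K, hk⟩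
    simp only [mem_preimage] at h3 h4
    rcases hf ⟨(k : ℕ) * K, hk⟩ with h5 | h5
    · rw [h5] at h3 h4
      have g1 : t k = true := by
        by_contra hcon
        rw [Bool.not_eq_true] at hcon
        exact hzU (ext t) k (by rw [hext]; exact hcon) h3
      have g2 : t' k = true := by
        by_contra hcon
        rw [Bool.not_eq_true] at hcon
        exact hzU (ext t') k (by rw [hext]; exact hcon) h4
      rw [g1, g2]
    · have h5' : f ⟨(k : ℕ) * K, hk⟩ = V := h5
      rw [h5'] at h3 h4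
      have g1 : t k = false := by
        by_contra hcon
        rw [Bool.not_eq_false] at hcon
        exact hzV (ext t) k (by rw [hext]; exact hcon) h3
      have g2 : t' k = false := by
        by_contra hcon
        rw [Bool.not_eq_false] at hcon
        exact hzV (ext t') k (by rw [hext]; exact hcon) h4
      rw [g1, g2]
  have hcard : Fintype.card (Fin N → Bool) ≤ S.card := by
    rw [← Fintype.card_coe S]
    exact Fintype.card_le_of_injective (fun t => ⟨F t, hF t⟩) fun t t' h =>
      hinj (congrArg Subtype.val h)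
  simpa using hcard

instance : MeasurableSpace X := borel X
instance : BorelSpace X := ⟨rfl⟩

/-- points whose entry at place `k` is nonzero -/
def A (k : ℕ) : Set X := {x | x.1 k ≠ 0}

/-- points whose entry at `0` is nonzero and smaller than `δ` -/
def O (δ : ℝ) : Set X := {x | x.1 0 ≠ 0 ∧ (x.1 0 : ℝ) < δ}

lemma A_open (k : ℕ) : IsOpen (A k) := by
  have : Continuous fun x : X => x.1 (k : ℤ) := (continuous_apply _).comp continuous_subtype_val
  exact isOpen_ne_fun this continuous_const

lemma O_open (δ : ℝ) : IsOpen (O δ) := by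
  have h1 : Continuous fun x : X => x.1 (0 : ℤ) := (continuous_apply _).comp continuous_subtype_val
  have h2 : Continuous fun x : X => (x.1 (0 : ℤ) : ℝ) := continuous_subtype_val.comp h1
  exact (isOpen_ne_fun h1 continuous_const).inter (isOpen_lt h2 continuous_const)

/-- the point with a single nonzero entry -/
noncomputable def single (t : unitInterval) : X :=
  ⟨fun i => if i = 0 then t else 0, by
    intro i hi a b _ _
    refine le_trans ?_ (le_max_left _ _)
    have : {j ∈ Finset.Icc a b | (if j = 0 then t else 0) ≠ (0 : unitInterval)} ⊆ {0} := by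
      intro j hj
      have := (Finset.mem_filter.1 hj).2
      by_contra hcon
      rw [Finset.mem_singleton] at hcon
      rw [if_neg hcon] at this
      exact this rfl
    have h2 := Finset.card_le_card this
    rw [Finset.card_singleton] at h2
    exact_mod_cast h2⟩

lemma single_mem {δ : ℝ} (h : 0 < δ) : (O δ).Nonempty := by
  have h1 : 0 < min (δ / 2) 1 := lt_min (by linarith) one_pos
  refine ⟨single ⟨min (δ / 2) 1, h1.le, min_le_right _ _⟩, ?_, ?_⟩
  · simp only [single, if_true]
    intro hcon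
    have h3 : min (δ / 2) 1 = 0 := congrArg Subtype.val hcon
    linarith
  · simp only [single, if_true]
    have := min_le_left (δ / 2) (1 : ℝ)
    linarith

lemma preimage_A (k : ℕ) : (T : X → X)^[k] ⁻¹' (A 0) = A k := by
  ext x
  simp only [A, mem_preimage, Set.mem_ofPred_eq, T_iter]
  simp

open Classical in
/-- if a small nonzero entry occurs early, there are few nonzero entries -/
lemma count_bound {δ : ℝ} {n N : ℕ} (hn : n < N) {x : X} (hx : T^[n] x ∈ O δ) :
    (∑ k ∈ Finset.range N, (A k).indicator (1 : X → ℝ) x) ≤ max 1 (N * δ) := by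
  obtain ⟨h1, h2⟩ := hx
  rw [T_iter] at h1 h2
  have h3 := x.2 (0 + n) h1 0 (N - 1) (by positivity) (by
    have : (n : ℤ) < N := by exact_mod_cast hn
    linarith)
  have h4 : (∑ k ∈ Finset.range N, (A k).indicator (1 : X → ℝ) x) =
      (({j ∈ Finset.Icc (0 : ℤ) (N - 1) | x.1 j ≠ 0}.card : ℕ) : ℝ) := by
    simp only [indicator_apply, Pi.one_apply]
    rw [Finset.sum_boole]
    congr 1
    apply Finset.card_bij (fun (k : ℕ) _ => (k : ℤ))
    · intro k hk
      have hk' := Finset.mem_filter.1 hk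
      have := Finset.mem_range.1 hk'.1
      rw [Finset.mem_filter, Finset.mem_Icc]
      refine ⟨⟨by positivity, by omega⟩, hk'.2⟩
    · intro k _ k' _ h
      exact_mod_cast h
    · intro j hj
      have hj' := Finset.mem_filter.1 hj
      have hj1 := Finset.mem_Icc.1 hj'.1
      refine ⟨j.toNat, ?_, ?_⟩
      · rw [Finset.mem_filter, Finset.mem_range]
        refine ⟨by omega, ?_⟩
        change x.1 ((j.toNat : ℕ) : ℤ) ≠ 0
        rw [Int.toNat_of_nonneg hj1.1]
        exact hj'.2
      · exact Int.toNat_of_nonneg hj1.1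
  rw [h4]
  refine h3.trans (max_le_max le_rfl ?_)
  have e : (((N : ℤ) - 1 - 0 + 1 : ℤ) : ℝ) = N := by push_cast; ring
  rw [e]
  exact mul_le_mul_of_nonneg_left h2.le (Nat.cast_nonneg _)

/-- **No ergodic measure has full support.** -/
theorem not_full (μ : Measure X) [IsProbabilityMeasure μ] (hμ : Ergodic (T : X → X) μ) :
    ∃ F : Set X, IsClosed F ∧ F ≠ univ ∧ μ Fᶜ = 0 := by
  by_contra hcon
  push Not at hcon
  have hpos : ∀ W : Set X, IsOpen W → W.Nonempty → 0 < μ W := by
    intro W hW hne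
    have := hcon Wᶜ hW.isClosed_compl (by
      intro h
      rw [compl_univ_iff] at h
      rw [h] at hne
      exact Set.not_nonempty_empty hne)
    rw [compl_compl] at this
    exact pos_iff_ne_zero.2 this
  have hTm : Measurable (T : X → X) := T.continuous.measurable
  -- a.e. point visits `O δ`
  have hvisit : ∀ δ : ℝ, 0 < δ → μ (⋃ n : ℕ, (T : X → X)^[n] ⁻¹' (O δ)) = 1 := by
    intro δ hδ
    set E : Set X := ⋃ n : ℕ, (T : X → X)^[n] ⁻¹' (O δ) with hE
    have hEm : MeasurableSet E :=
      MeasurableSet.iUnion fun n => (hTm.iterate n) (O_open δ).measurableSet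
    have hsub : (T : X → X) ⁻¹' E ⊆ E := by
      intro x hx
      obtain ⟨n, hn⟩ := mem_iUnion.1 hx
      refine mem_iUnion.2 ⟨n + 1, ?_⟩
      rw [mem_preimage, Function.iterate_succ_apply]
      exact hn
    rcases hμ.ae_empty_or_univ_of_preimage_ae_le hEm.nullMeasurableSet hsub.eventuallyLE with h | h
    · have h1 : μ E = 0 := by rw [measure_congr h]; exact measure_empty
      have h2 : 0 < μ (O δ) := hpos _ (O_open δ) (single_mem hδ)
      have h3 : O δ ⊆ E := fun x hx => mem_iUnion.2 ⟨0, hx⟩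
      exact absurd (measure_mono_null h3 h1) h2.ne'
    · rw [measure_congr h]; exact measure_univ
  have hbound : ∀ δ : ℝ, 0 < δ → μ.real (A 0) ≤ 2 * δ := by
    intro δ hδ
    -- `E n`: a visit before time `n`
    set E : ℕ → Set X := fun n => ⋃ k ∈ Finset.range n, (T : X → X)^[k] ⁻¹' (O δ) with hE
    have hEm : ∀ n, MeasurableSet (E n) := fun n =>
      Finset.measurableSet_biUnion _ fun k _ => (hTm.iterate k) (O_open δ).measurableSet
    have hmono : Monotone E := by
      intro m n hmn x hx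
      simp only [hE, mem_iUnion] at hx ⊢
      obtain ⟨k, hk, hx⟩ := hx
      exact ⟨k, Finset.mem_range.2 ((Finset.mem_range.1 hk).trans_le hmn), hx⟩
    have hlim : Tendsto (fun n => μ.real (E n)) atTop (𝓝 1) := by
      have h1 := tendsto_measure_iUnion_atTop (μ := μ) hmono
      have h2 : (⋃ n, E n) = ⋃ n : ℕ, (T : X → X)^[n] ⁻¹' (O δ) := by
        ext x
        simp only [hE, mem_iUnion]
        constructor
        · rintro ⟨n, k, -, hx⟩
          exact ⟨k, hx⟩
        · rintro ⟨k, hx⟩
          exact ⟨k + 1, k, Finset.mem_range.2 (Nat.lt_succ_self k), hx⟩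
      rw [h2, hvisit δ hδ] at h1
      have h3 := (ENNReal.tendsto_toReal ENNReal.one_ne_top).comp h1
      rw [ENNReal.toReal_one] at h3
      exact h3
    obtain ⟨n, hn⟩ := (hlim.eventually (lt_mem_nhds (show (1 : ℝ) - δ < 1 by linarith))).exists
    obtain ⟨N, hN⟩ := exists_nat_gt (max (n : ℝ) (1 / δ))
    have hN1 : n < N := by
      have := (le_max_left _ _).trans_lt hN
      exact_mod_cast this
    have hN2 : 1 ≤ N * δ := by
      have := (le_max_right _ _).trans_lt hN
      rw [div_lt_iff₀ hδ] at this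
      exact this.le
    have hNpos : (0 : ℝ) < N := by
      have : 0 < N := by omega
      exact_mod_cast this
    -- integrate
    have hAi : ∀ k, Integrable ((A k).indicator (1 : X → ℝ)) μ := fun k =>
      (integrable_const (1 : ℝ)).indicator (A_open k).measurableSet
    have h1 : ∫ x, (∑ k ∈ Finset.range N, (A k).indicator (1 : X → ℝ) x) ∂μ =
        N * μ.real (A 0) := by
      rw [integral_finsetSum _ fun k _ => hAi k]
      have : ∀ k ∈ Finset.range N, ∫ x, (A k).indicator (1 : X → ℝ) x ∂μ = μ.real (A 0) := by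
        intro k _
        rw [integral_indicator_one (A_open k).measurableSet, ← preimage_A k]
        exact (hμ.toMeasurePreserving.iterate k).measureReal_preimage
          (A_open 0).measurableSet.nullMeasurableSet
      rw [Finset.sum_congr rfl this, Finset.sum_const, Finset.card_range, nsmul_eq_mul]
    have h2 : ∀ x, (∑ k ∈ Finset.range N, (A k).indicator (1 : X → ℝ) x) ≤
        N * δ + N * ((E n)ᶜ).indicator (1 : X → ℝ) x := by
      intro x
      by_cases hx : x ∈ E n
      · rw [indicator_of_notMem (by simpa using hx), mul_zero, add_zero]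
        simp only [hE, mem_iUnion] at hx
        obtain ⟨k, hk, hx⟩ := hx
        refine (count_bound ((Finset.mem_range.1 hk).trans hN1) hx).trans (max_le hN2 le_rfl)
      · rw [indicator_of_mem (by simpa using hx)]
        have h3 : (∑ k ∈ Finset.range N, (A k).indicator (1 : X → ℝ) x) ≤
            ∑ k ∈ Finset.range N, (1 : ℝ) := by
          refine Finset.sum_le_sum fun k _ => ?_
          exact indicator_le_self' (fun _ _ => zero_le_one) x
        rw [Finset.sum_const, Finset.card_range, nsmul_eq_mul] at h3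
        simp only [Pi.one_apply]
        nlinarith
    have hI : Integrable (fun x => (N : ℝ) * ((E n)ᶜ).indicator (1 : X → ℝ) x) μ :=
      ((integrable_const (1 : ℝ)).indicator (hEm n).compl).const_mul _
    have h3 : ∫ x, (∑ k ∈ Finset.range N, (A k).indicator (1 : X → ℝ) x) ∂μ ≤
        ∫ x, (N * δ + N * ((E n)ᶜ).indicator (1 : X → ℝ) x) ∂μ := by
      exact integral_mono (integrable_finsetSum _ fun k _ => hAi k) ((integrable_const _).add hI) h2
    rw [h1, integral_add (integrable_const _) hI, integral_const,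
      integral_const_mul, integral_indicator_one (hEm n).compl, probReal_univ, one_smul,
      probReal_compl_eq_one_sub (hEm n)] at h3
    have h4 : (N : ℝ) * μ.real (A 0) ≤ N * (2 * δ) := by
      refine h3.trans ?_
      have : (N : ℝ) * (1 - μ.real (E n)) ≤ N * δ :=
        mul_le_mul_of_nonneg_left (by linarith) hNpos.le
      linarith
    exact le_of_mul_le_mul_left h4 hNpos
  have hA : 0 < μ.real (A 0) := by
    rw [measureReal_def, ENNReal.toReal_pos_iff]
    refine ⟨hpos _ (A_open 0) ?_, measure_lt_top _ _⟩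
    obtain ⟨x, hx⟩ := single_mem (δ := 1) one_pos
    exact ⟨x, hx.1⟩
  have := hbound (μ.real (A 0) / 4) (by linarith)
  linarith

lemma metrizable : TopologicalSpace.MetrizableSpace X := by
  have : TopologicalSpace.MetrizableSpace (ℤ → unitInterval) :=
    TopologicalSpace.metrizableSpace_of_t3_secondCountable _
  exact (Topology.IsEmbedding.subtypeVal
    (p := fun x : ℤ → unitInterval => Good x)).metrizableSpace

/-- **MP_6603ca_an, Q1: no.** There is a homeomorphism of a compact metrizable space with uniform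
positive entropy such that every ergodic invariant Borel probability measure is carried by a
proper closed subset. -/
theorem result :
    ∃ (X : Type) (_ : TopologicalSpace X) (_ : CompactSpace X)
      (_ : TopologicalSpace.MetrizableSpace X) (_ : MeasurableSpace X) (_ : BorelSpace X)
      (T : X ≃ₜ X), UPE (T : X → X) ∧
      ∀ μ : Measure X, IsProbabilityMeasure μ → Ergodic (T : X → X) μ →
        ∃ F : Set X, IsClosed F ∧ F ≠ univ ∧ μ Fᶜ = 0 :=
  ⟨X, inferInstance, inferInstance, metrizable, inferInstance, inferInstance, T, upe,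
    fun μ _ hμ => not_full μ hμ⟩

end Pool.Agent.Results.MP_6603ca_an.NoErgodicFullSupport
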